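import Mathlib
import Pool.Agent.Lib.H41D.P8
import Pool.Agent.Lib.H55K.NK2
import Pool.Agent.Lib.H55K.RD

/-! # H35U, part 1: the discriminant of K F over K, p unramified in F, any ramification in K -/

open NumberField IsDedekindDomain Polynomial

namespace H35U

open H55P (IQ Nm UnrP eF)
open H55K (cj)
open H55K.TQ (QuadG)
open H41D

variable {F : Type} [Field F] [NumberField F] [IQ F]

/-- The minimal polynomial of δ. -/
theorem u1_min {K₀ K : Type} [Field K₀] [NumberField K₀] [Field K] [NumberField K] [Algebra F K] [Algebra K₀ K] (hQ : QuadG F K₀ K)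
    {δ : 𝓞 F} (hδ : cj δ = -δ) (hδ0 : δ ≠ 0) :
    minpoly (𝓞 K₀) (algebraMap (𝓞 F) (𝓞 K) δ) = X ^ 2 + C ((Nm δ : ℕ) : 𝓞 K₀) ∧
      Algebra.adjoin K₀ {algebraMap (𝓞 K) K (algebraMap (𝓞 F) (𝓞 K) δ)} = ⊤ := by
  obtain ⟨τ, hτ⟩ := hQ.tau
  obtain ⟨θ, hθ⟩ : ∃ θ, θ = algebraMap (𝓞 F) (𝓞 K) δ := ⟨_, rfl⟩
  rw [← hθ]
  have hθK : algebraMap (𝓞 K) K θ = algebraMap F K (δ : F) := by rw [hθ]; rfl
  have hθ0 : algebraMap (𝓞 K) K θ ≠ 0 := by
    rw [hθK, Ne, map_eq_zero]
    exact fun h => hδ0 (RingOfIntegers.coe_eq_zero_iff.1 h)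
  have hτθ : τ (algebraMap (𝓞 K) K θ) = -algebraMap (𝓞 K) K θ := by
    rw [hθK, hτ, hδ]
    show algebraMap F K (algebraMap (𝓞 F) F (-δ)) = _
    rw [map_neg, map_neg]
  have hnot : ∀ x : K₀, algebraMap K₀ K x ≠ algebraMap (𝓞 K) K θ := by
    intro x hx
    have h1 := hτθ
    rw [← hx, τ.commutes] at h1
    have h2 : (2 : K) * algebraMap K₀ K x = 0 := by linear_combination h1
    rcases mul_eq_zero.1 h2 with h3 | h3
    · exact two_ne_zero h3
    · rw [hx] at h3
      exact hθ0 h3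
  have hsq : θ ^ 2 + algebraMap (𝓞 K₀) (𝓞 K) ((Nm δ : ℕ) : 𝓞 K₀) = 0 := by
    have h1 := H55K.mul_cj δ
    rw [hδ] at h1
    have h2 : δ ^ 2 + ((Nm δ : ℕ) : 𝓞 F) = 0 := by rw [← h1]; ring
    have h3 := congrArg (algebraMap (𝓞 F) (𝓞 K)) h2
    rw [map_add, map_pow, map_natCast, map_zero, ← hθ] at h3
    rw [map_natCast]
    exact h3
  have hint : IsIntegral (𝓞 K₀) θ := Algebra.IsIntegral.isIntegral θ
  constructor
  · symm
    refine IsIntegrallyClosed.minpoly.unique (R := 𝓞 K₀) (s := θ) ?_ ?_ ?_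
    · exact monic_X_pow_add_C _ two_ne_zero
    · rw [map_add, map_pow, aeval_X, aeval_C]
      exact hsq
    · intro q hq hq0
      by_contra hlt
      push Not at hlt
      rw [degree_X_pow_add_C (by norm_num : 0 < 2)] at hlt
      have hqd : q.natDegree ≤ 1 := by
        have h1 : q.natDegree < 2 := (Polynomial.natDegree_lt_iff_degree_lt hq.ne_zero).2 (by exact_mod_cast hlt)
        omega
      rcases Nat.le_one_iff_eq_zero_or_eq_one.1 hqd with h1 | h1
      · have h2 : q = 1 := by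
          have e1 := Polynomial.eq_C_of_natDegree_eq_zero h1
          have e2 : q.coeff 0 = 1 := by
            have e3 := hq.coeff_natDegree
            rwa [h1] at e3
          rw [e1, e2, map_one]
        rw [h2, map_one] at hq0
        exact one_ne_zero hq0
      · have h2 := hq.eq_X_add_C h1
        rw [h2, map_add, aeval_X, aeval_C] at hq0
        apply hnot (-((q.coeff 0 : 𝓞 K₀) : K₀))
        have h3 := congrArg (algebraMap (𝓞 K) K) hq0
        rw [map_add, map_zero] at h3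
        have h4 : algebraMap (𝓞 K) K (algebraMap (𝓞 K₀) (𝓞 K) (q.coeff 0)) = algebraMap K₀ K ((q.coeff 0 : 𝓞 K₀) : K₀) := rfl
        rw [h4] at h3
        rw [map_neg]
        linear_combination -h3
  · have hfd : FiniteDimensional K₀ K := Module.Finite.of_restrictScalars_finite ℚ K₀ K
    have hi : IsIntegral K₀ (algebraMap (𝓞 K) K θ) := Algebra.IsIntegral.isIntegral _
    have h1 : IntermediateField.adjoin K₀ {algebraMap (𝓞 K) K θ} = ⊤ := by
      have h2 := Module.finrank_mul_finrank K₀ (IntermediateField.adjoin K₀ {algebraMap (𝓞 K) K θ}) K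
      rw [hQ.rank] at h2
      rcases (Nat.dvd_prime Nat.prime_two).1 (Dvd.intro _ h2) with h3 | h3
      · exfalso
        rw [IntermediateField.finrank_eq_one_iff, IntermediateField.adjoin_simple_eq_bot_iff, IntermediateField.mem_bot] at h3
        obtain ⟨x, hx⟩ := h3
        exact hnot x hx
      · rw [h3] at h2
        have h4 : Module.finrank (IntermediateField.adjoin K₀ {algebraMap (𝓞 K) K θ}) K = 1 := by omega
        exact IntermediateField.eq_of_le_of_finrank_eq le_top (by rw [h3, IntermediateField.finrank_top', hQ.rank])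
    rw [← IntermediateField.adjoin_simple_toSubalgebra_of_isAlgebraic hi.isAlgebraic, h1]
    rfl

/-- The relative different of K F over K is prime to p. -/
theorem val_diff_quad {K₀ K : Type} [Field K₀] [NumberField K₀] [Field K] [NumberField K] [Algebra F K] [Algebra K₀ K] (hQ : QuadG F K₀ K)
    {p : ℕ} (hp : p.Prime) (hp2 : p ≠ 2) (hU : UnrP p F) (V : ValuationSubring ℂ) (hV : V.valuation (p : ℂ) < 1) :
    V.valuation ((Ideal.absNorm (differentIdeal (𝓞 K₀) (𝓞 K)) : ℕ) : ℂ) = 1 := by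
  obtain ⟨δ, hδ, hN⟩ := H55K.TQ.nk2_delta hp hp2 hU
  have hδ0 : δ ≠ 0 := by
    rintro rfl
    apply hN
    have e : Nm (0 : 𝓞 F) = 0 := H55P.Nm_eq_zero.2 rfl
    rw [e]
    exact dvd_zero p
  obtain ⟨h1, h2⟩ := u1_min hQ hδ hδ0
  have h3 := aeval_derivative_mem_differentIdeal (𝓞 K₀) K₀ K (algebraMap (𝓞 F) (𝓞 K) δ) h2
  rw [h1] at h3
  have h4 : aeval (algebraMap (𝓞 F) (𝓞 K) δ) (derivative (X ^ 2 + C ((Nm δ : ℕ) : 𝓞 K₀))) = algebraMap (𝓞 F) (𝓞 K) (2 * δ) := by
    rw [derivative_add, derivative_C, add_zero, derivative_X_pow, map_mul, aeval_C, map_pow, aeval_X, map_mul, map_ofNat]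
    norm_num
    exact Or.inl (map_ofNat _ 2)
  rw [h4] at h3
  apply H55P.val_nat p hp V hV
  intro hd
  have h5 : Ideal.absNorm (differentIdeal (𝓞 K₀) (𝓞 K)) ∣ Ideal.absNorm (Ideal.span {algebraMap (𝓞 F) (𝓞 K) (2 * δ)}) :=
    Ideal.absNorm_dvd_absNorm_of_le ((Ideal.span_singleton_le_iff_mem _).2 h3)
  have hfd : FiniteDimensional F K := Module.Finite.of_restrictScalars_finite ℚ F K
  have h6 : Ideal.absNorm (Ideal.span {algebraMap (𝓞 F) (𝓞 K) (2 * δ)}) = Ideal.absNorm (Ideal.span {2 * δ}) ^ Module.finrank F K := by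
    have h7 : Ideal.span {algebraMap (𝓞 F) (𝓞 K) (2 * δ)} = (Ideal.span {2 * δ}).map (algebraMap (𝓞 F) (𝓞 K)) := by
      rw [Ideal.map_span, Set.image_singleton]
    rw [h7, ← Ideal.absNorm_relNorm (𝓞 F) (𝓞 K), Ideal.relNorm_algebraMap, map_pow]
    congr 1
    exact (IsFractionRing.finrank_eq (𝓞 F) F (𝓞 K) K).symm
  rw [h6] at h5
  have h7 : p ∣ Ideal.absNorm (Ideal.span {2 * δ}) := hp.dvd_of_dvd_pow (hd.trans h5)
  rw [← Ideal.span_singleton_mul_span_singleton, map_mul] at h7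
  rcases (hp.dvd_mul).1 h7 with h8 | h8
  · have h9 : Ideal.absNorm (Ideal.span {(2 : 𝓞 F)}) = 2 ^ Module.finrank ℤ (𝓞 F) := by
      have := Ideal.absNorm_span_natCast (S := 𝓞 F) 2
      simpa using this
    rw [h9] at h8
    have h10 := hp.dvd_of_dvd_pow h8
    exact hp2 ((Nat.prime_dvd_prime_iff_eq hp Nat.prime_two).1 h10)
  · exact hN h8

/-- The discriminant of K F is the square of the discriminant of K at the places above p. -/
theorem val_discr_quad {K₀ K : Type} [Field K₀] [NumberField K₀] [Field K] [NumberField K] [Algebra F K] [Algebra K₀ K] (hQ : QuadG F K₀ K)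
    {p : ℕ} (hp : p.Prime) (hp2 : p ≠ 2) (hU : UnrP p F) (V : ValuationSubring ℂ) (hV : V.valuation (p : ℂ) < 1) :
    V.valuation (((discr K).natAbs : ℕ) : ℂ) = V.valuation (((discr K₀).natAbs : ℕ) : ℂ) ^ 2 := by
  rw [NumberField.natAbs_discr_eq_absNorm_differentIdeal_mul_natAbs_discr_pow K₀ (𝓞 K₀) K (𝓞 K)]
  push_cast
  rw [map_mul, map_pow, val_diff_quad hQ hp hp2 hU V hV, hQ.rank, one_mul]

end H35U
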