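import Mathlib
import Pool.Agent.Lib.H35M.SN2
import Pool.Agent.Lib.H13R.J3
import Pool.Agent.Lib.H28I.C3
import Pool.Agent.Lib.H28I.D

/-! # H35U: torsion over M and over the field generated by F and M -/

open NumberField IsDedekindDomain WeierstrassCurve

namespace H35U

open H55P (IQ embF eF LF Per IsHecke Pt ac Inert Dec Nm UnitP UnrP PsiP)
open H55K (cj ak)
open H55K.TQ H35M

open Classical in
/-- W has no nonzero point of order p over M. -/
def NT (p : ℕ) (W : WeierstrassCurve ℤ) (M : Type) [Field M] [NumberField M] : Prop :=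
  ∀ P : (W⁄M).toAffine.Point, p • P = 0 → P = 0

variable {F : Type} [Field F] [NumberField F] [IQ F] {W : WeierstrassCurve ℤ} {Om : ℂ}
    {m : Ideal (𝓞 F)} {ψ : Ideal (𝓞 F) →*₀ 𝓞 F} {p : ℕ}

open Classical in
/-- From M to the fixed points in the algebraic closure. -/
theorem nt_fix (hd : W.Δ ≠ 0) (M : Type) [Field M] [NumberField M] (ι : M →ₐ[ℚ] AlgebraicClosure F) :
    NT p W M ↔ ∀ T : Pt (W⁄ℚ) (AlgebraicClosure F), p • T = 0 → (∀ s ∈ ι.fieldRange.fixingSubgroup, ac (W⁄ℚ) s T = T) → T = 0 := by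
  have hQF := tower_QFF F
  have hQA := alg_QFF F
  have hell : (W⁄ℚ).IsElliptic := by
    rw [WeierstrassCurve.isElliptic_iff]
    have e := WeierstrassCurve.map_Δ W (algebraMap ℤ ℚ)
    refine IsUnit.mk0 _ ?_
    intro h
    apply hd
    have h1 : (algebraMap ℤ ℚ) W.Δ = 0 := e.symm.trans h
    rw [eq_intCast] at h1
    exact_mod_cast h1
  have e2 : ((W⁄ℚ)⁄M) = (W⁄M) := fb9b_map W
  have hNT : NT p W M ↔ ∀ P : Pt (W⁄ℚ) M, p • P = 0 → P = 0 := by
    show (∀ P : (W⁄M).toAffine.Point, p • P = 0 → P = 0) ↔ ∀ P : ((W⁄ℚ)⁄M).toAffine.Point, p • P = 0 → P = 0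
    rw [e2]
  rw [hNT]
  let e : M ≃ₐ[ℚ] ι.fieldRange := AlgEquiv.ofInjectiveField ι
  obtain ⟨J₁, hJ₁⟩ : ∃ J : Pt (W⁄ℚ) M →+ Pt (W⁄ℚ) ι.fieldRange,
      J = Affine.Point.map (W' := (W⁄ℚ).toAffine) e.toAlgHom := ⟨_, rfl⟩
  obtain ⟨J₂, hJ₂⟩ : ∃ J : Pt (W⁄ℚ) ι.fieldRange →+ Pt (W⁄ℚ) M,
      J = Affine.Point.map (W' := (W⁄ℚ).toAffine) e.symm.toAlgHom := ⟨_, rfl⟩
  obtain ⟨J₃, hJ₃⟩ : ∃ J : Pt (W⁄ℚ) ι.fieldRange →+ Pt (W⁄ℚ) (AlgebraicClosure F),
      J = Affine.Point.map (W' := (W⁄ℚ).toAffine) ι.fieldRange.val := ⟨_, rfl⟩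
  have h1 : Function.Injective J₁ := by rw [hJ₁]; exact Affine.Point.map_injective _
  have h2 : Function.Injective J₂ := by rw [hJ₂]; exact Affine.Point.map_injective _
  have h3 : Function.Injective J₃ := by rw [hJ₃]; exact Affine.Point.map_injective _
  have h4 : ∀ T : Pt (W⁄ℚ) (AlgebraicClosure F), (∀ s ∈ ι.fieldRange.fixingSubgroup, ac (W⁄ℚ) s T = T) ↔ ∃ Q, J₃ Q = T := by
    intro T
    rw [hJ₃]
    exact H55P.fix_iff (W⁄ℚ) ι.fieldRange T
  constructor
  · intro h T hT hf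
    obtain ⟨Q, hQ⟩ := (h4 T).1 hf
    have hpQ : p • Q = 0 := by
      apply h3
      rw [map_nsmul, map_zero, hQ, hT]
    have h4 := h (J₂ Q) (by rw [← map_nsmul, hpQ, map_zero])
    have h5 : Q = 0 := h2 (by rw [h4, map_zero])
    rw [← hQ, h5, map_zero]
  · intro h P hP
    have h5 := h (J₃ (J₁ P)) (by rw [← map_nsmul, ← map_nsmul, hP, map_zero, map_zero]) ((h4 _).2 ⟨_, rfl⟩)
    apply h1
    apply h3
    rw [h5, map_zero, map_zero]

open Classical in
/-- No torsion over M gives no torsion over the field generated by F and M. -/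
theorem nt_up (hH : BaseH F (W⁄(𝓞 F)) Om m ψ) (hp : p.Prime) (hp2 : p ≠ 2) (hU : UnrP p F)
    (M : Type) [Field M] [NumberField M] (ι : M →ₐ[ℚ] AlgebraicClosure F) (h : NT p W M) : NoTor p (W⁄(𝓞 F)) (KG F M ι) := by
  have hQF := tower_QFF F
  have hQA := alg_QFF F
  have hd : W.Δ ≠ 0 := by
    intro h
    apply hH.data.ell
    have e := WeierstrassCurve.map_Δ W (algebraMap ℤ (𝓞 F))
    rw [h, map_zero] at e
    exact e
  have hfix := (nt_fix (F := F) hd M ι).1 h
  obtain ⟨δ, hδ, hNδ⟩ := nk2_delta hp hp2 hU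
  obtain ⟨S, hS, hS1, hS2⟩ := exists_sd hH δ hδ
  have hdich := fun s : AlgebraicClosure F ≃ₐ[ℚ] AlgebraicClosure F => nk2_dich (F := F) s
  have hfixK : ∀ s : AlgebraicClosure F ≃ₐ[ℚ] AlgebraicClosure F, s ∈ ι.fieldRange.fixingSubgroup → ∀ x : M, s (ι x) = ι x := fun s hs x =>
    (IntermediateField.mem_fixingSubgroup_iff _ s).1 hs (ι x) ⟨x, rfl⟩
  have hac : ∀ (s t : AlgebraicClosure F ≃ₐ[ℚ] AlgebraicClosure F) (P : Pt (W⁄ℚ) (AlgebraicClosure F)),
      ac (W⁄ℚ) (s * t) P = ac (W⁄ℚ) s (ac (W⁄ℚ) t P) := by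
    intro s t P
    have h1 := (H55P.acR (W⁄ℚ)).map_mul s t
    have h2 := DFunLike.congr_fun h1 P
    exact h2
  -- elements fixing M and F
  have hmem : ∀ s : AlgebraicClosure F ≃ₐ[ℚ] AlgebraicClosure F, s ∈ ι.fieldRange.fixingSubgroup →
      (∀ x : F, s (algebraMap F (AlgebraicClosure F) x) = algebraMap F (AlgebraicClosure F) x) →
      s ∈ ((KG F M ι).restrictScalars ℚ).fixingSubgroup := by
    intro s hs hF
    rw [IntermediateField.mem_fixingSubgroup_iff]
    intro y hy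
    refine IntermediateField.adjoin_induction F (p := fun x _ => s x = x) ?_ ?_ ?_ ?_ ?_ hy
    · rintro _ ⟨x, rfl⟩
      exact hfixK s hs x
    · exact hF
    · intro x y _ _ h1 h2
      rw [map_add, h1, h2]
    · intro x _ h1
      rw [map_inv₀, h1]
    · intro x y _ _ h1 h2
      rw [map_mul, h1, h2]
  -- the statement over the rationals
  have key : ∀ T : Pt (W⁄ℚ) (AlgebraicClosure F), p • T = 0 →
      (∀ s ∈ ((KG F M ι).restrictScalars ℚ).fixingSubgroup, ac (W⁄ℚ) s T = T) → T = 0 := by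
    intro T hT hf
    by_cases hall : ∀ s ∈ ι.fieldRange.fixingSubgroup, ∀ x : F, s (algebraMap F (AlgebraicClosure F) x) = algebraMap F (AlgebraicClosure F) x
    · exact hfix T hT fun s hs => hf s (hmem s hs (hall s hs))
    push Not at hall
    obtain ⟨τ, hτ, x₀, hx₀⟩ := hall
    have hτc : ∀ a : 𝓞 F, τ (ak (AlgebraicClosure F) a) = ak (AlgebraicClosure F) (cj a) := by
      rcases hdich τ with h1 | h1
      · exact absurd (h1 x₀) hx₀
      · exact h1
    -- the general vanishing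
    have hplus : ∀ T : Pt (W⁄ℚ) (AlgebraicClosure F), p • T = 0 →
        (∀ s ∈ ((KG F M ι).restrictScalars ℚ).fixingSubgroup, ac (W⁄ℚ) s T = T) → T + ac (W⁄ℚ) τ T = 0 := by
      intro T hT hf
      have hnorm : ∀ s ∈ ι.fieldRange.fixingSubgroup, ∀ t ∈ ((KG F M ι).restrictScalars ℚ).fixingSubgroup,
          s * t * s⁻¹ ∈ ((KG F M ι).restrictScalars ℚ).fixingSubgroup := fun s hs t ht => kg_norm F M ι s hs t ht
      have hcases : ∀ s ∈ ι.fieldRange.fixingSubgroup, s ∈ ((KG F M ι).restrictScalars ℚ).fixingSubgroup ∨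
          τ⁻¹ * s ∈ ((KG F M ι).restrictScalars ℚ).fixingSubgroup := by
        intro s hs
        rcases hdich s with h1 | h1
        · exact Or.inl (hmem s hs h1)
        · right
          have hts : τ⁻¹ * s ∈ ι.fieldRange.fixingSubgroup := mul_mem (inv_mem hτ) hs
          refine hmem _ hts ?_
          rcases hdich (τ⁻¹ * s) with h2 | h2
          · exact h2
          · exfalso
            apply hx₀
            -- τ (τ⁻¹ s) = s, so conj conj = conj
            have h3 : ∀ a : 𝓞 F, ak (AlgebraicClosure F) a = ak (AlgebraicClosure F) (cj a) := by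
              intro a
              have h4 := h1 (cj a)
              have h5 := h2 (cj a)
              rw [H55K.cj_cj] at h4 h5
              have h6 : s (ak (AlgebraicClosure F) (cj a)) = τ ((τ⁻¹ * s) (ak (AlgebraicClosure F) (cj a))) := by
                rw [← AlgEquiv.mul_apply, mul_inv_cancel_left]
              rw [h4, h5, hτc] at h6
              exact h6
            obtain ⟨a, b, hb, hab⟩ := IsFractionRing.div_surjective (A := 𝓞 F) x₀
            have hak : ∀ a : 𝓞 F, τ (algebraMap F (AlgebraicClosure F) (algebraMap (𝓞 F) F a)) =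
                algebraMap F (AlgebraicClosure F) (algebraMap (𝓞 F) F a) := by
              intro a
              have h4 := hτc a
              rw [← h3] at h4
              exact h4
            rw [← hab, map_div₀, map_div₀, hak, hak]
      refine hfix _ ?_ fun s hs => ?_
      · rw [nsmul_add, hT, zero_add, ← map_nsmul, hT, map_zero]
      · rw [map_add]
        rcases hcases s hs with h1 | h1
        · have h2 : τ⁻¹ * s * τ ∈ ((KG F M ι).restrictScalars ℚ).fixingSubgroup := by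
            have h3 := hnorm τ⁻¹ (inv_mem hτ) s h1
            rwa [inv_inv] at h3
          have h4 : s * τ = τ * (τ⁻¹ * s * τ) := by group
          rw [hf s h1, ← hac, h4, hac, hf _ h2]
        · have h2 : τ⁻¹ * s * τ * τ ∈ ((KG F M ι).restrictScalars ℚ).fixingSubgroup := by
            have h3 := hnorm τ⁻¹ (inv_mem hτ) _ h1
            have hττ : τ * τ ∈ ((KG F M ι).restrictScalars ℚ).fixingSubgroup := by
              rcases hcases τ⁻¹ (inv_mem hτ) with h5 | h5
              · have h6 := mul_mem (inv_mem h5) (inv_mem h5)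
                rwa [inv_inv] at h6
              · have h6 := inv_mem h5
                rwa [mul_inv_rev, inv_inv] at h6
            have h4 : τ⁻¹ * s * τ * τ = (τ⁻¹ * s) * (τ * τ) := by group
            rw [h4]
            exact mul_mem h1 hττ
          have h5 : ac (W⁄ℚ) s T = ac (W⁄ℚ) τ T := by
            have h6 : s = τ * (τ⁻¹ * s) := by group
            rw [h6, hac, hf _ h1]
          have h6 : ac (W⁄ℚ) s (ac (W⁄ℚ) τ T) = T := by
            have h7 : ac (W⁄ℚ) (s * τ) T = T := by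
              have h8 : s * τ ∈ ((KG F M ι).restrictScalars ℚ).fixingSubgroup := by
                have h9 := hnorm τ hτ _ h2
                have e : τ * (τ⁻¹ * s * τ * τ) * τ⁻¹ = s * τ := by group
                rwa [e] at h9
              exact hf _ h8
            rw [← hac, h7]
          rw [h5, h6, add_comm]
    have hST : p • S T = 0 := by rw [← map_nsmul, hT, map_zero]
    have hSf : ∀ s ∈ ((KG F M ι).restrictScalars ℚ).fixingSubgroup, ac (W⁄ℚ) s (S T) = S T := by
      intro s hs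
      rw [hS1 s ?_ T, hf s hs]
      intro x
      exact (IntermediateField.mem_fixingSubgroup_iff _ s).1 hs _ ((KG F M ι).algebraMap_mem x)
    have e1 := hplus T hT hf
    have e2 := hplus (S T) hST hSf
    rw [hS2 τ hτc T, ← sub_eq_add_neg, ← map_sub] at e2
    have e3 : ac (W⁄ℚ) τ T = -T := eq_neg_of_add_eq_zero_right e1
    rw [e3, sub_neg_eq_add, ← two_nsmul, map_nsmul] at e2
    have e4 : S T = 0 := by
      have h1 : ((2 : ℕ) : ℤ) • S T = 0 := by rw [natCast_zsmul]; exact e2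
      have h2 : ((p : ℕ) : ℤ) • S T = 0 := by rw [natCast_zsmul]; exact hST
      have hc : IsCoprime ((2 : ℕ) : ℤ) ((p : ℕ) : ℤ) := by
        rw [Nat.isCoprime_iff_coprime]
        exact (Nat.coprime_primes Nat.prime_two hp).2 (Ne.symm hp2)
      obtain ⟨a, b, hab⟩ := hc
      rw [← one_zsmul (S T), ← hab, add_smul, mul_smul, mul_smul, h1, h2, smul_zero, smul_zero, add_zero]
    have e5 := hS T
    rw [e4, map_zero, eq_comm, neg_eq_zero] at e5
    have h1 : ((Nm δ : ℕ) : ℤ) • T = 0 := by rw [natCast_zsmul]; exact e5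
    have h2 : ((p : ℕ) : ℤ) • T = 0 := by rw [natCast_zsmul]; exact hT
    have hc : IsCoprime ((Nm δ : ℕ) : ℤ) ((p : ℕ) : ℤ) := by
      rw [Nat.isCoprime_iff_coprime]
      exact ((Nat.Prime.coprime_iff_not_dvd hp).2 hNδ).symm
    obtain ⟨a, b, hab⟩ := hc
    rw [← one_zsmul T, ← hab, add_smul, mul_smul, mul_smul, h1, h2, smul_zero, smul_zero, add_zero]
  -- transfer
  have e1 : ((W⁄ℚ)⁄F) = ((W⁄(𝓞 F))⁄F) := by
    rw [fb9b_map, fb9b_map]
  unfold NoTor
  rw [← e1]
  obtain ⟨φ, hφ⟩ := H55P.base_iso (F := F) (Ω := AlgebraicClosure F) (W⁄ℚ)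
  intro T hT hf
  apply φ.symm.injective
  rw [map_zero]
  refine key _ (by rw [← map_nsmul, hT, map_zero]) fun s hs => ?_
  have hsF : ∀ x : F, s (algebraMap F (AlgebraicClosure F) x) = algebraMap F (AlgebraicClosure F) x := fun x =>
    (IntermediateField.mem_fixingSubgroup_iff _ s).1 hs _ ((KG F M ι).algebraMap_mem x)
  obtain ⟨t, ht⟩ : ∃ t : AlgebraicClosure F ≃ₐ[F] AlgebraicClosure F, t.restrictScalars ℚ = s :=
    ⟨{ s with commutes' := hsF }, AlgEquiv.ext fun x => rfl⟩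
  have htm : t ∈ (KG F M ι).fixingSubgroup := by
    rw [IntermediateField.mem_fixingSubgroup_iff]
    intro y hy
    have h1 := (IntermediateField.mem_fixingSubgroup_iff _ s).1 hs y hy
    rw [← ht] at h1
    exact h1
  apply φ.injective
  rw [← ht, hφ, φ.apply_symm_apply]
  exact hf t htm

open Classical in
/-- No torsion over the field generated by F and M gives no torsion over M. -/
theorem nt_down (hd : W.Δ ≠ 0) (M : Type) [Field M] [NumberField M] (ι : M →ₐ[ℚ] AlgebraicClosure F)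
    (h : NoTor p (W⁄(𝓞 F)) (KG F M ι)) : NT p W M := by
  have hQF := tower_QFF F
  have hQA := alg_QFF F
  rw [nt_fix (F := F) hd M ι]
  intro T hT hf
  have e1 : ((W⁄ℚ)⁄F) = ((W⁄(𝓞 F))⁄F) := by
    rw [fb9b_map, fb9b_map]
  unfold NoTor at h
  rw [← e1] at h
  refine H55P.tors_base (F := F) (W⁄ℚ) p (KG F M ι) h T hT fun s hs => hf s ?_
  rw [IntermediateField.mem_fixingSubgroup_iff] at hs ⊢
  exact fun x hx => hs x (kg_le F M ι hx)

open Classical in
/-- Isogenies of degree prime to p. -/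
theorem nt_iso {K : Type} [Field K] [NumberField K] {W₁ W₂ : WeierstrassCurve K} (hp : p.Prime) (h5 : 5 ≤ p)
    (h : H28I.Iso6 W₁ W₂ (AlgebraicClosure K)) (hW : ∀ P : W₁.toAffine.Point, p • P = 0 → P = 0) :
    ∀ P : W₂.toAffine.Point, p • P = 0 → P = 0 := by
  obtain ⟨Φ, Ψ, h1, h2, hΦ, hΨ⟩ := h
  have hW₁ : W₁⁄K = W₁ := WeierstrassCurve.map_id W₁
  have hW₂ : W₂⁄K = W₂ := WeierstrassCurve.map_id W₂
  have hW' : ∀ P : Pt W₁ K, p • P = 0 → P = 0 := by
    show ∀ P : (W₁⁄K).toAffine.Point, p • P = 0 → P = 0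
    rw [hW₁]
    exact hW
  suffices hs : ∀ P : Pt W₂ K, p • P = 0 → P = 0 by
    change ∀ P : (W₂⁄K).toAffine.Point, p • P = 0 → P = 0 at hs
    rw [hW₂] at hs
    exact hs
  obtain ⟨J₁, hJ₁⟩ : ∃ J : Pt W₁ K →+ Pt W₁ (AlgebraicClosure K),
      J = Affine.Point.map (W' := W₁.toAffine) (Algebra.ofId K (AlgebraicClosure K)) := ⟨_, rfl⟩
  obtain ⟨J₂, hJ₂⟩ : ∃ J : Pt W₂ K →+ Pt W₂ (AlgebraicClosure K),
      J = Affine.Point.map (W' := W₂.toAffine) (Algebra.ofId K (AlgebraicClosure K)) := ⟨_, rfl⟩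
  have i1 : Function.Injective J₁ := by
    rw [hJ₁]
    exact Affine.Point.map_injective (Algebra.ofId K (AlgebraicClosure K))
  have i2 : Function.Injective J₂ := by
    rw [hJ₂]
    exact Affine.Point.map_injective (Algebra.ofId K (AlgebraicClosure K))
  have f2 : ∀ s P, ac W₂ s (J₂ P) = J₂ P := by
    intro s P
    rw [hJ₂]
    unfold ac
    rw [Affine.Point.map_map]
    congr 2
    exact Subsingleton.elim _ _
  intro P hP
  obtain ⟨Q, hQ⟩ : ∃ Q : Pt W₁ K, J₁ Q = Ψ (J₂ P) := by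
    rw [hJ₁]
    exact H13Z.tr_fixed W₁ (Ψ (J₂ P)) fun s => by rw [← hΨ, f2]
  have h3 : p • Q = 0 := by
    apply i1
    rw [map_nsmul, hQ, ← map_nsmul, ← map_nsmul, hP, map_zero, map_zero, map_zero]
  rw [hW' Q h3, map_zero] at hQ
  have h4 : (6 : ℕ) • J₂ P = 0 := by rw [← h2, ← hQ, map_zero]
  have h5' : p • J₂ P = 0 := by rw [← map_nsmul, hP, map_zero]
  have hc : IsCoprime ((6 : ℕ) : ℤ) ((p : ℕ) : ℤ) := by
    rw [Nat.isCoprime_iff_coprime]
    refine ((Nat.Prime.coprime_iff_not_dvd hp).2 fun hd => ?_).symm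
    have h6 := Nat.le_of_dvd (by norm_num) hd
    interval_cases p
    · omega
    · exact absurd hp (by norm_num)
  obtain ⟨a, b, hab⟩ := hc
  apply i2
  rw [map_zero]
  have h6 : ((6 : ℕ) : ℤ) • J₂ P = 0 := by rw [natCast_zsmul]; exact h4
  have h7 : ((p : ℕ) : ℤ) • J₂ P = 0 := by rw [natCast_zsmul]; exact h5'
  rw [← one_zsmul (J₂ P), ← hab, add_smul, mul_smul, mul_smul, h6, h7, smul_zero, smul_zero, add_zero]

end H35U
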