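import Mathlib
import Pool.Agent.Lib.H35U.U1
import Pool.Agent.Lib.H35M.SYD
import Pool.Agent.Lib.H41D.P8
import Pool.Agent.Lib.H55Z.P1
import Pool.Agent.Lib.H55K.RP2
import Pool.Agent.Lib.H55K.RP3
import Pool.Agent.Lib.H13R.J4

/-! # H35U, part 2: the real normalisation of the L-value over K, arbitrary ramification above p -/

open NumberField IsDedekindDomain WeierstrassCurve

namespace H35U

open H55P (IQ embF eF LF Per IsHecke Pt ac Inert Dec Nm UnitP UnrP PsiP)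
open H55K (cj)
open H55K.TQ H41D H35M H55Z H13R
open H55N (tm)

variable {F : Type} [Field F] [NumberField F] [IQ F] {W : WeierstrassCurve ℤ} {Om : ℂ}
    {m : Ideal (𝓞 F)} {ψ : Ideal (𝓞 F) →*₀ 𝓞 F} {p : ℕ}

/-- The absolute discriminant at the places above p. -/
theorem val_discrU (K : Type) [Field K] [NumberField K] [Algebra F K] (hp : p.Prime) (hU : UnrP p F) (V : ValuationSubring ℂ)
    (hV : V.valuation (p : ℂ) < 1) : V.valuation (((discr K).natAbs : ℕ) : ℂ) =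
      vN F V (differentIdeal (𝓞 F) (𝓞 K)) * vNc F V (differentIdeal (𝓞 F) (𝓞 K)) := by
  have h1 := NumberField.natAbs_discr_eq_absNorm_differentIdeal_mul_natAbs_discr_pow F (𝓞 F) K (𝓞 K)
  have h2 : V.valuation ((discr F : ℤ) : ℂ) = 1 := by
    refine val_cop V hV ?_
    exact (Nat.prime_iff_prime_int.1 hp).coprime_iff_not_dvd.2 (H55P.pl1_discr p hp hU)
  rw [← val_absNorm, h1]
  push_cast
  rw [map_mul, map_pow, val_natAbs V (discr F), h2, one_pow, mul_one]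

/-- The square root of the discriminant of K and the different of K F over F. -/
theorem sD_KG (hp : p.Prime) (hp2 : p ≠ 2) (hU : UnrP p F) (K : Type) [Field K] [NumberField K] (ι : K →ₐ[ℚ] AlgebraicClosure F)
    [NumberField (KG F K ι)] (V : ValuationSubring ℂ) (hV : V.valuation (p : ℂ) < 1) :
    (Module.finrank ℚ K = 2 * Module.finrank F (KG F K ι) →
      sD V K ^ 2 = vN F V (differentIdeal (𝓞 F) (𝓞 (KG F K ι))) * vNc F V (differentIdeal (𝓞 F) (𝓞 (KG F K ι)))) ∧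
    (Module.finrank ℚ K = Module.finrank F (KG F K ι) →
      sD V K ^ 4 = vN F V (differentIdeal (𝓞 F) (𝓞 (KG F K ι))) * vNc F V (differentIdeal (𝓞 F) (𝓞 (KG F K ι)))) := by
  have hfd : FiniteDimensional F (KG F K ι) := Module.Finite.of_restrictScalars_finite ℚ F (KG F K ι)
  have hpos : 0 < Module.finrank F (KG F K ι) := Module.finrank_pos
  rw [← val_discrU (KG F K ι) hp hU V hV]
  rcases kg_dich F K ι with ⟨f, hf⟩ | hQ
  · letI : Algebra F K := f.toAlgebra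
    obtain ⟨θ⟩ := kg_iso F K ι f hf
    have h1 := Module.finrank_mul_finrank ℚ F K
    have h2 : Module.finrank F K = Module.finrank F (KG F K ι) := θ.toLinearEquiv.finrank_eq
    have h3 : Module.finrank ℚ F = 2 := IQ.deg
    rw [h3, h2] at h1
    have h4 : discr K = discr (KG F K ι) := NumberField.discr_eq_discr_of_algEquiv K (θ.restrictScalars ℚ)
    refine ⟨fun _ => ?_, fun h => ?_⟩
    · rw [sD_sq, h4]
    · omega
  · letI : Algebra K (KG F K ι) := (KGmap F K ι).toAlgebra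
    have h1 := quad_deg F hQ
    refine ⟨fun h => ?_, fun _ => ?_⟩
    · omega
    · rw [val_discr_quad hQ hp hp2 hU V hV, ← sD_sq, ← pow_mul]

/-- The two local factors. -/
theorem lG_sq (hH : BaseH F (W⁄(𝓞 F)) Om m ψ) (hp : PrimeH F (W⁄(𝓞 F)) p) (K : Type) [Field K] [NumberField K] (ι : K →ₐ[ℚ] AlgebraicClosure F)
    [NumberField (KG F K ι)] (hR : LRel W ψ K (KG F K ι)) {Φ : ℂ → ℂ} (hΦa : AnalyticOnNhd ℂ Φ {s | 1 / 2 < s.re})
    (hΦ : ∀ s : ℂ, 3 / 2 < s.re → HasSum (tm (PsiP (KG F K ι) ψ) s) (Φ s)) :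
    ∃ Λ : ℂ → ℂ, AnalyticOnNhd ℂ Λ {s | 1 / 2 < s.re} ∧
      (∀ s : ℂ, 3 / 2 < s.re → LSeriesSummable (fun n => (((W⁄K).LFunction n : ℤ) : ℂ)) s ∧ Λ s = (W⁄K).LSeries s) ∧
      (Φ 1 ≠ 0 → Λ 1 ≠ 0) ∧
      ∀ V : ValuationSubring ℂ, V.valuation (p : ℂ) < 1 → ∀ L : PeriodPair, PerZ W L → ∃ k : ℕ, k ≠ 0 ∧
        V.valuation (lG K W L (Λ 1)) ^ k =
          (V.valuation (Φ 1 / Om ^ Module.finrank F (KG F K ι)) ^ 2 * vN F V (differentIdeal (𝓞 F) (𝓞 (KG F K ι)))) *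
          (V.valuation ((starRingEnd ℂ) (Φ 1 / Om ^ Module.finrank F (KG F K ι))) ^ 2 * vNc F V (differentIdeal (𝓞 F) (𝓞 (KG F K ι)))) := by
  have hper := perW_of hH
  have hp2 : p ≠ 2 := by
    have := hp.five
    omega
  obtain ⟨Λ, h1, h2, h3, h4⟩ := lG_relD hH hp K (KG F K ι) hR hΦa hΦ
  refine ⟨Λ, h1, h2, h3, fun V hV L hL => ?_⟩
  have hfd : FiniteDimensional F (KG F K ι) := Module.Finite.of_restrictScalars_finite ℚ F (KG F K ι)
  have hpos : 0 < Module.finrank F (KG F K ι) := Module.finrank_pos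
  obtain ⟨d1, d2⟩ := sD_KG hp.prime hp2 hp.unr K ι V hV
  rcases h4 V hV L hL with ⟨hd, h⟩ | ⟨hd, h⟩
  · refine ⟨2, two_ne_zero, ?_⟩
    rw [h, mul_pow, mul_pow, d1 hd]
    exact mul_mul_mul_comm _ _ _ _
  · refine ⟨4, by norm_num, ?_⟩
    have hc : V.valuation ((starRingEnd ℂ) (Φ 1 / Om ^ Module.finrank F (KG F K ι))) =
        V.valuation (Φ 1 / Om ^ Module.finrank F (KG F K ι)) := by
      rcases hR with ⟨hd', -⟩ | ⟨-, hR⟩
      · omega
      · rw [fb6b_conj hper V, fb6b_real K hΦa (hR Φ hΦ)]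
    rw [h, hc, mul_pow, d2 hd]
    have e : V.valuation (Φ 1 / Om ^ Module.finrank F (KG F K ι)) ^ 4 =
        V.valuation (Φ 1 / Om ^ Module.finrank F (KG F K ι)) ^ 2 * V.valuation (Φ 1 / Om ^ Module.finrank F (KG F K ι)) ^ 2 := by
      rw [← pow_add]
    rw [e]
    exact mul_mul_mul_comm _ _ _ _

/-- The value at the conjugate place. -/
theorem conj_one {K : Type} [Field K] [NumberField K] [Algebra F K] (V : ValuationSubring ℂ) (z : ℂ) (a : Ideal (𝓞 K)) :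
    ((V.comap (starRingEnd ℂ)).valuation z ^ 2 * vN F (V.comap (starRingEnd ℂ)) a = 1 ↔
      V.valuation ((starRingEnd ℂ) z) ^ 2 * vNc F V a = 1) ∧
    ((V.comap (starRingEnd ℂ)).valuation z ^ 2 * vN F (V.comap (starRingEnd ℂ)) a ≤ 1 ↔
      V.valuation ((starRingEnd ℂ) z) ^ 2 * vNc F V a ≤ 1) := by
  unfold vN vNc
  rw [← map_pow, ← map_mul, ← map_pow, ← map_mul, ← map_pow (starRingEnd ℂ), ← map_mul (starRingEnd ℂ)]
  refine ⟨cV_eq_one V _, ?_⟩
  have h := cV_le V (z ^ 2 * eF F (Submodule.IsPrincipal.generator (Ideal.relNorm (𝓞 F) a))) 1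
  rw [map_one, map_one, map_one] at h
  exact h

/-- LVO and LVOi for the given continuation. -/
theorem lvo_of {K : Type} [Field K] [NumberField K] [Algebra F K] {V : ValuationSubring ℂ} {h : Ideal (𝓞 K) →*₀ ℂ} {Φ : ℂ → ℂ}
    (hΦa : AnalyticOnNhd ℂ Φ {s | 1 / 2 < s.re}) (hΦ : ∀ s : ℂ, 3 / 2 < s.re → HasSum (tm h s) (Φ s)) :
    (LVO F V Om h ↔ V.valuation (Φ 1 / Om ^ Module.finrank F K) ^ 2 * vN F V (differentIdeal (𝓞 F) (𝓞 K)) = 1) ∧
    (LVOi F V Om h ↔ V.valuation (Φ 1 / Om ^ Module.finrank F K) ^ 2 * vN F V (differentIdeal (𝓞 F) (𝓞 K)) ≤ 1) := by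
  have key : ∀ Λ : ℂ → ℂ, AnalyticOnNhd ℂ Λ {s | 1 / 2 < s.re} → (∀ s : ℂ, 3 / 2 < s.re → HasSum (tm h s) (Λ s)) → Λ 1 = Φ 1 :=
    fun Λ h1 h2 => H55N.ident Λ Φ h1 hΦa (fun s hs => (h2 s hs).unique (hΦ s hs)) 1 (by norm_num)
  constructor
  · constructor
    · rintro ⟨Λ, h1, h2, h3⟩
      rwa [key Λ h1 h2] at h3
    · intro h3
      exact ⟨Φ, hΦa, hΦ, h3⟩
  · constructor
    · rintro ⟨Λ, h1, h2, h3⟩
      rwa [key Λ h1 h2] at h3
    · intro h3
      exact ⟨Φ, hΦa, hΦ, h3⟩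

theorem above_conj (hp : p.Prime) (V : ValuationSubring ℂ) (hV : V.valuation (p : ℂ) < 1) :
    (V.comap (starRingEnd ℂ)).valuation (p : ℂ) < 1 := H55P.i5_above p hp V hV

theorem mul_one_iff {Γ : Type} [LinearOrderedCommGroupWithZero Γ] {a b : Γ} (ha : a ≤ 1) (hb : b ≤ 1) : a * b = 1 ↔ a = 1 ∧ b = 1 := by
  constructor
  · intro h
    refine ⟨le_antisymm ha ?_, le_antisymm hb ?_⟩
    · by_contra hlt
      have h5 := mul_lt_one_of_nonneg_of_lt_one_left zero_le (not_le.1 hlt) hb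
      rw [h] at h5
      exact lt_irrefl _ h5
    · by_contra hlt
      have h5 := mul_lt_one_of_nonneg_of_lt_one_right ha zero_le (not_le.1 hlt)
      rw [h] at h5
      exact lt_irrefl _ h5
  · rintro ⟨rfl, rfl⟩
    exact one_mul 1

section main

variable (hH : BaseH F (W⁄(𝓞 F)) Om m ψ) (hp : PrimeH F (W⁄(𝓞 F)) p) (K : Type) [Field K] [NumberField K] (ι : K →ₐ[ℚ] AlgebraicClosure F)
    [NumberField (KG F K ι)] (hR : LRel W ψ K (KG F K ι))
    (hI : ∀ V : ValuationSubring ℂ, V.valuation (p : ℂ) < 1 → LVOi F V Om (PsiP (KG F K ι) ψ))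

include hH hp hR hI

/-- All the facts for one continuation. -/
theorem lG_all : ∃ Λ : ℂ → ℂ, AnalyticOnNhd ℂ Λ {s | 1 / 2 < s.re} ∧
      (∀ s : ℂ, 3 / 2 < s.re → LSeriesSummable (fun n => (((W⁄K).LFunction n : ℤ) : ℂ)) s ∧ Λ s = (W⁄K).LSeries s) ∧
      ((∃ V : ValuationSubring ℂ, LVO F V Om (PsiP (KG F K ι) ψ)) → Λ 1 ≠ 0) ∧
      ∀ V : ValuationSubring ℂ, V.valuation (p : ℂ) < 1 → ∀ L : PeriodPair, PerZ W L →
        V.valuation (lG K W L (Λ 1)) ≤ 1 ∧ (V.valuation (lG K W L (Λ 1)) = 1 ↔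
          LVO F V Om (PsiP (KG F K ι) ψ) ∧ LVO F (V.comap (starRingEnd ℂ)) Om (PsiP (KG F K ι) ψ)) := by
  obtain ⟨V₀, hV₀⟩ := H55P.exists_above_p p hp.prime
  obtain ⟨Φ, hΦa, hΦ, -⟩ := hI V₀ hV₀
  obtain ⟨Λ, h1, h2, h3, h4⟩ := lG_sq hH hp K ι hR hΦa hΦ
  refine ⟨Λ, h1, h2, ?_, fun V hV L hL => ?_⟩
  · rintro ⟨V, hV⟩
    apply h3
    intro h0
    have h5 := (lvo_of (F := F) (Om := Om) hΦa hΦ).1.1 hV
    rw [h0, zero_div, map_zero, zero_pow two_ne_zero, zero_mul] at h5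
    exact zero_ne_one h5
  · obtain ⟨k, hk, h5⟩ := h4 V hV L hL
    have ha := (lvo_of (F := F) (Om := Om) hΦa hΦ).2.1 (hI V hV)
    have hb := (conj_one V _ _).2.1 ((lvo_of (F := F) (Om := Om) hΦa hΦ).2.1 (hI _ (above_conj hp.prime V hV)))
    have hle : V.valuation (lG K W L (Λ 1)) ≤ 1 := by
      rw [← pow_le_one_iff hk, h5]
      exact mul_le_one' ha hb
    refine ⟨hle, ?_⟩
    have hk1 : V.valuation (lG K W L (Λ 1)) = 1 ↔ V.valuation (lG K W L (Λ 1)) ^ k = 1 := by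
      refine ⟨fun h => by rw [h, one_pow], fun h => le_antisymm hle (not_lt.1 fun hlt => ?_)⟩
      have h6 := pow_lt_one₀ zero_le hlt hk
      rw [h] at h6
      exact lt_irrefl _ h6
    rw [hk1, h5, mul_one_iff ha hb, (lvo_of (F := F) (Om := Om) hΦa hΦ).1,
      (lvo_of (F := F) (Om := Om) hΦa hΦ).1, (conj_one V _ _).1]

/-- The L-value is a unit above p if and only if the canonical values are units at all places above p. -/
theorem lunit_iffO : LUnitG p W K ↔ ∀ V : ValuationSubring ℂ, V.valuation (p : ℂ) < 1 → LVO F V Om (PsiP (KG F K ι) ψ) := by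
  obtain ⟨Λ, h1, h2, h3, h4⟩ := lG_all hH hp K ι hR hI
  constructor
  · rintro ⟨⟨L, hL⟩, Λ', hΛa', hΛs', -, hΛu'⟩ V hV
    have e1 : Λ 1 = Λ' 1 := H55N.ident Λ Λ' h1 hΛa' (fun s hs => by
      rw [(h2 s hs).2, (hΛs' s hs).2]) 1 (by norm_num)
    have h5 : V.valuation (lG K W L (Λ 1)) = 1 := by
      rw [e1]
      exact hΛu' L hL V hV
    exact ((h4 V hV L hL).2.1 h5).1
  · intro h
    obtain ⟨V₀, hV₀⟩ := H55P.exists_above_p p hp.prime
    refine ⟨exists_perZ (perW_of hH), Λ, h1, h2, h3 ⟨V₀, h V₀ hV₀⟩, fun L hL V hV => ?_⟩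
    exact (h4 V hV L hL).2.2 ⟨h V hV, h _ (above_conj hp.prime V hV)⟩

/-- Integrality. -/
theorem int_ofO : AnIntG p W K := by
  obtain ⟨Λ, h1, h2, h3, h4⟩ := lG_all hH hp K ι hR hI
  refine ⟨exists_perZ (perW_of hH), Λ, h1, h2, fun L hL V hV => ?_⟩
  rw [← ValuationSubring.valuation_le_one_iff]
  exact (h4 V hV L hL).1

/-- Divisibility. -/
theorem non_ofO (hN : ∀ V : ValuationSubring ℂ, V.valuation (p : ℂ) < 1 →
    ¬ (LVO F V Om (PsiP (KG F K ι) ψ) ∧ LVO F (V.comap (starRingEnd ℂ)) Om (PsiP (KG F K ι) ψ))) : AnNonG p W K := by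
  obtain ⟨Λ, h1, h2, h3, h4⟩ := lG_all hH hp K ι hR hI
  refine ⟨exists_perZ (perW_of hH), Λ, h1, h2, fun L hL V hV => ?_⟩
  obtain ⟨h5, h6⟩ := h4 V hV L hL
  exact lt_of_le_of_ne h5 fun h => hN V hV (h6.1 h)

end main

end H35U
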