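import Mathlib
import Pool.Agent.Lib.H35U.U2
import Pool.Agent.Lib.H35U.NT1
import Pool.Agent.Lib.H35M.SZ1
import Pool.Agent.Lib.H19B.SB
import Pool.Agent.Lib.H13R.I1

/-! # H35U: the relative theorem, arbitrary ramification above a split prime p -/

open NumberField IsDedekindDomain WeierstrassCurve

namespace H35U

open H55P (IQ embF eF LF Per IsHecke Pt ac Inert Dec Nm UnitP UnrP PExt PsiP)
open H35P (WAB Ker tt GoodW IntW)
open H55K H55K.TQ
open H35M (LVO LVOi NoTor intB critB)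
open H13R (BadM NoRel LUnitG)

/-- FM and FK are the fields generated by F and M, F and K in the algebraic closure of F. FM is contained in FK, FK is contained in a Galois
extension L of FM of degree a power of p, if p is inert in F then p is unramified in L, and W has bad reduction at all primes of FM which
divide the discriminant of W. -/
structure TowerB (F : Type) [Field F] [NumberField F] (p : ℕ) (W : WeierstrassCurve ℤ) (M K : Type) [Field M] [NumberField M] [Field K]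
    [NumberField K] (ιM : M →ₐ[ℚ] AlgebraicClosure F) (ιK : K →ₐ[ℚ] AlgebraicClosure F) : Prop where
  sub : KG F M ιM ≤ KG F K ιK
  ext : ∃ (L : IntermediateField F (AlgebraicClosure F)) (_ : NumberField L), PExt p (KG F M ιM) L ∧
    ((Ideal.span {(p : 𝓞 F)}).IsPrime → UnrP p L) ∧ KG F K ιK ≤ L
  bad : BadM (W⁄(𝓞 F)) (KG F M ιM)

/-- The conclusions over K and M. NoRel: no prime v of FM, not dividing the discriminant of W, with p | #W(k_v), is ramified in FK. NT: no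
point of order p over M. -/
structure OverB (F : Type) [Field F] [NumberField F] (p : ℕ) (W : WeierstrassCurve ℤ) (M K : Type) [Field M] [NumberField M] [Field K]
    [NumberField K] (ιM : M →ₐ[ℚ] AlgebraicClosure F) (ιK : K →ₐ[ℚ] AlgebraicClosure F) : Prop where
  sel : H55P.SelTriv (W⁄K) p ↔ H55P.SelTriv (W⁄M) p ∧ NoRel p (W⁄(𝓞 F)) (KG F M ιM) (KG F K ιK)
  bsd : BSDPG p W K ↔ BSDPG p W M ∧ NoRel p (W⁄(𝓞 F)) (KG F M ιM) (KG F K ιK)
  selnon : ¬ NoRel p (W⁄(𝓞 F)) (KG F M ιM) (KG F K ιK) → H13Z.SelNonT (W⁄K) p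
  int : NT p W M → AnIntG p W K
  lval : NT p W M → (LUnitG p W K ↔ LUnitG p W M ∧ NoRel p (W⁄(𝓞 F)) (KG F M ιM) (KG F K ιK))
  annon : NT p W M → ¬ NoRel p (W⁄(𝓞 F)) (KG F M ιM) (KG F K ιK) → AnNonG p W K
  nt : UnrP p (KG F M ιM) ∨ H55P.SelTriv (W⁄M) p → NT p W M

open Classical in
/-- The converse for Selmer groups, p split (interface of H19C). -/
def NonSel (F : Type) [Field F] [NumberField F] [IQ F] (W : WeierstrassCurve ℤ) (p : ℕ) : Prop :=
  ∀ (M K L : IntermediateField F (AlgebraicClosure F)) [NumberField M] [NumberField K], PExt p M L → M ≤ K → K ≤ L →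
    ¬ NoRel p (W⁄(𝓞 F)) M K → H13Z.SelNon ((W⁄(𝓞 F))⁄F) p K

variable {F : Type} [Field F] [NumberField F] [IQ F] {W : WeierstrassCurve ℤ} {Om : ℂ}
    {m : Ideal (𝓞 F)} {ψ : Ideal (𝓞 F) →*₀ 𝓞 F} {p : ℕ}

/-- If p is not inert in F then p is the product of two different primes. -/
theorem spl_of (hp : PrimeH F (W⁄(𝓞 F)) p) (h : ¬ (Ideal.span {(p : 𝓞 F)}).IsPrime) : H19B.Spl F p := by
  have hpp := hp.prime
  have hp0 : (p : 𝓞 F) ≠ 0 := Nat.cast_ne_zero.2 hpp.ne_zero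
  have hnu : ¬ IsUnit (p : 𝓞 F) := by
    intro hu
    have h1 : IsUnit ((p : 𝓞 F) : F) := hu.map (algebraMap (𝓞 F) F)
    have h2 := H55P.Nm_eq_zero (F := F) (x := (p : 𝓞 F))
    have h3 : Nm (p : 𝓞 F) = 1 := by
      show Ideal.absNorm (Ideal.span {(p : 𝓞 F)}) = 1
      rw [Ideal.span_singleton_eq_top.2 hu]
      exact Ideal.absNorm_top
    have h4 := mul_cj (p : 𝓞 F)
    rw [map_natCast, h3, Nat.cast_one, ← Nat.cast_mul] at h4
    have h5 : p * p = 1 := by exact_mod_cast h4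
    have h6 := hpp.one_lt
    nlinarith
  obtain ⟨π, hπ, hd⟩ := WfDvdMonoid.exists_irreducible_factor hnu hp0
  have hPID : IsPrincipalIdealRing (𝓞 F) := IQ.pid
  have hπ' : Prime π := hπ.prime
  refine ⟨π, hπ', hd, fun hc => ?_⟩
  -- the norm of π
  have h1 := mul_cj π
  obtain ⟨c, hc'⟩ := hd
  have hNm : ((Nm π * Nm c : ℕ) : 𝓞 F) = ((p * p : ℕ) : 𝓞 F) := by
    have h2 : (p : 𝓞 F) * cj (p : 𝓞 F) = (π * cj π) * (c * cj c) := by
      rw [hc', map_mul]
      ring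
    rw [map_natCast, mul_cj, mul_cj] at h2
    push_cast
    exact h2.symm
  have hNm' : Nm π * Nm c = p * p := by exact_mod_cast hNm
  have hNdvd : Nm π ∣ p ^ 2 := ⟨Nm c, by rw [hNm', sq]⟩
  obtain ⟨k, hk, hk'⟩ := (Nat.dvd_prime_pow hpp).1 hNdvd
  have hk1 : k ≠ 0 := by
    rintro rfl
    rw [pow_zero] at hk'
    rw [hk', Nat.cast_one] at h1
    exact hπ.not_isUnit (IsUnit.of_mul_eq_one _ h1)
  have hk2 : k ≠ 2 := by
    rintro rfl
    apply h
    have h2 : Nm c = 1 := by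
      rw [hk', sq] at hNm'
      have h3 : 0 < p * p := Nat.mul_pos hpp.pos hpp.pos
      exact Nat.eq_of_mul_eq_mul_left h3 (by rw [hNm', mul_one])
    have h3 : IsUnit c := by
      have h4 := mul_cj c
      rw [h2, Nat.cast_one] at h4
      exact IsUnit.of_mul_eq_one _ h4
    rw [Ideal.span_singleton_prime hp0, hc']
    exact (Associated.prime_iff (associated_mul_unit_right π c h3)).1 hπ'
  have hk3 : k = 1 := by omega
  rw [hk', hk3, pow_one] at h1
  have h2 : π * π ∣ (p : 𝓞 F) := by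
    rw [← h1]
    exact mul_dvd_mul_left π hc
  have h3 : Ideal.span {π} * Ideal.span {π} ∣ Ideal.span {(p : 𝓞 F)} := by
    rw [Ideal.span_singleton_mul_span_singleton, Ideal.dvd_span_singleton, Ideal.mem_span_singleton]
    exact h2
  exact hπ.not_isUnit (Ideal.span_singleton_eq_top.1 (Ideal.isUnit_iff.1 (hp.unr _ h3)))

section split

variable (hH : BaseH F (W⁄(𝓞 F)) Om m ψ) (hp : PrimeH F (W⁄(𝓞 F)) p)

include hH hp

open Classical in
/-- The Selmer group over K and over FK. -/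
theorem selB_iff (K : Type) [Field K] [NumberField K] (ι : K →ₐ[ℚ] AlgebraicClosure F) [NumberField (KG F K ι)] :
    H55P.SelTriv (W⁄K) p ↔ H55P.SelG p (W⁄(𝓞 F)) (KG F K ι) := by
  have hfd : FiniteDimensional F (KG F K ι) := H13R.kg_fin F K ι
  have hell : ((W⁄(𝓞 F))⁄F).IsElliptic := H55P.gen_ell (W⁄(𝓞 F)) hH.data.ell
  refine ⟨fun h => H13R.selG_of_triv hH hp.prime (by have := hp.five; omega) hp.unr K ι h, fun h => ?_⟩
  exact (H13R.sel_absR hH hp K ι (fun T hT hf => H19B.tors_of_sel ((W⁄(𝓞 F))⁄F) p hp.prime (KG F K ι) h T hT hf) h).1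

open Classical in
/-- The Tate-Shafarevich group and the points. -/
theorem selB_rest (K : Type) [Field K] [NumberField K] (ι : K →ₐ[ℚ] AlgebraicClosure F) [NumberField (KG F K ι)]
    (h : H55P.SelTriv (W⁄K) p) :
    H55P.SelTriv (W⁄K) p ∧ H55P.ShaTriv (W⁄K) p ∧
      Finite (W⁄K).toAffine.Point ∧ ¬ p ∣ Nat.card (W⁄K).toAffine.Point := by
  have hfd : FiniteDimensional F (KG F K ι) := H13R.kg_fin F K ι
  have hell : ((W⁄(𝓞 F))⁄F).IsElliptic := H55P.gen_ell (W⁄(𝓞 F)) hH.data.ell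
  have h1 := (selB_iff hH hp K ι).1 h
  exact H13R.sel_absR hH hp K ι (fun T hT hf => H19B.tors_of_sel ((W⁄(𝓞 F))⁄F) p hp.prime (KG F K ι) h1 T hT hf) h1

theorem bsdB_iff (K : Type) [Field K] [NumberField K] (ι : K →ₐ[ℚ] AlgebraicClosure F) [NumberField (KG F K ι)] :
    BSDPG p W K ↔ H55P.SelTriv (W⁄K) p ∧ LUnitG p W K := by
  constructor
  · rintro ⟨⟨h1, -, -, h2⟩, h3⟩
    exact ⟨h1, (H13R.an_iff hp.prime h2).1 h3⟩
  · rintro ⟨h1, h2⟩
    have h3 := selB_rest hH hp K ι h1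
    exact ⟨h3, (H13R.an_iff hp.prime h3.2.2.2).2 h2⟩

theorem disc_neB : W.Δ ≠ 0 := by
  intro h
  apply hH.data.ell
  have e := WeierstrassCurve.map_Δ W (algebraMap ℤ (𝓞 F))
  rw [h, map_zero] at e
  exact e

open Classical in
/-- No torsion over M if its Selmer group is trivial or p is unramified in FM. -/
theorem nt_of (M : Type) [Field M] [NumberField M] (ι : M →ₐ[ℚ] AlgebraicClosure F) [NumberField (KG F M ι)]
    (h : UnrP p (KG F M ι) ∨ H55P.SelTriv (W⁄M) p) : NT p W M := by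
  have hfd : FiniteDimensional F (KG F M ι) := H13R.kg_fin F M ι
  have hell : ((W⁄(𝓞 F))⁄F).IsElliptic := H55P.gen_ell (W⁄(𝓞 F)) hH.data.ell
  refine nt_down (F := F) (disc_neB hH hp) M ι ?_
  rcases h with h | h
  · exact fun T hT hf => H13R.tors_KR hH hp h (H13R.pext_self p (KG F M ι)) le_rfl T hT hf
  · exact fun T hT hf => H19B.tors_of_sel ((W⁄(𝓞 F))⁄F) p hp.prime (KG F M ι) ((selB_iff hH hp M ι).1 h) T hT hf

variable (hsp : H19B.Spl F p) (hns : NonSel F W p) (M K : Type) [Field M] [NumberField M]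
    [Field K] [NumberField K] (ιM : M →ₐ[ℚ] AlgebraicClosure F) (ιK : K →ₐ[ℚ] AlgebraicClosure F)
    {L : IntermediateField F (AlgebraicClosure F)} (hL : PExt p (KG F M ιM) L)
    (hMK : KG F M ιM ≤ KG F K ιK) (hKL : KG F K ιK ≤ L) (hB : BadM (W⁄(𝓞 F)) (KG F M ιM))

include hsp hL hMK hKL hB

theorem intKB (hN : NT p W M) (V : ValuationSubring ℂ) (hV : V.valuation (p : ℂ) < 1) : LVOi F V Om (PsiP (KG F K ιK) ψ) :=
  intB hH hp hsp hL hMK hKL (nt_up hH hp.prime (by have := hp.five; omega) hp.unr M ιM hN) hV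

theorem lvalB (hN : NT p W M) : LUnitG p W K ↔ LUnitG p W M ∧ NoRel p (W⁄(𝓞 F)) (KG F M ιM) (KG F K ιK) := by
  have hT := nt_up hH hp.prime (by have := hp.five; omega) hp.unr M ιM hN
  have hRM : LRel W ψ M (KG F M ιM) := H13R.lrelM hH M ιM hB
  have hRK : LRel W ψ K (KG F K ιK) := H13R.lrelK hH hp hL hB K ιK hMK hKL
  have hIM : ∀ V : ValuationSubring ℂ, V.valuation (p : ℂ) < 1 → LVOi F V Om (PsiP (KG F M ιM) ψ) :=
    fun V hV => intB hH hp hsp hL le_rfl hL.le hT hV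
  rw [lunit_iffO hH hp K ιK hRK (fun V hV => intB hH hp hsp hL hMK hKL hT hV), lunit_iffO hH hp M ιM hRM hIM]
  constructor
  · intro h
    have key : ∀ V : ValuationSubring ℂ, V.valuation (p : ℂ) < 1 →
        (LVO F V Om (PsiP (KG F M ιM) ψ) ∧ LVO F (V.comap (starRingEnd ℂ)) Om (PsiP (KG F M ιM) ψ)) ∧
          NoRel p (W⁄(𝓞 F)) (KG F M ιM) (KG F K ιK) := fun V hV =>
      (critB hH hp hsp hL hMK hKL hT hV).1 ⟨h V hV, h _ (above_conj hp.prime V hV)⟩
    obtain ⟨V₀, hV₀⟩ := H55P.exists_above_p p hp.prime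
    exact ⟨fun V hV => (key V hV).1.1, (key V₀ hV₀).2⟩
  · rintro ⟨h1, h2⟩ V hV
    exact ((critB hH hp hsp hL hMK hKL hT hV).2 ⟨⟨h1 V hV, h1 _ (above_conj hp.prime V hV)⟩, h2⟩).1

theorem annonB (hN : NT p W M) (hR : ¬ NoRel p (W⁄(𝓞 F)) (KG F M ιM) (KG F K ιK)) : AnNonG p W K := by
  have hT := nt_up hH hp.prime (by have := hp.five; omega) hp.unr M ιM hN
  have hRK : LRel W ψ K (KG F K ιK) := H13R.lrelK hH hp hL hB K ιK hMK hKL
  exact non_ofO hH hp K ιK hRK (fun V hV => intB hH hp hsp hL hMK hKL hT hV)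
    fun V hV h => hR ((critB hH hp hsp hL hMK hKL hT hV).1 h).2

theorem anintB (hN : NT p W M) : AnIntG p W K := by
  have hT := nt_up hH hp.prime (by have := hp.five; omega) hp.unr M ιM hN
  have hRK : LRel W ψ K (KG F K ιK) := H13R.lrelK hH hp hL hB K ιK hMK hKL
  exact int_ofO hH hp K ιK hRK (fun V hV => intB hH hp hsp hL hMK hKL hT hV)

include hns

theorem selB_iffK : H55P.SelTriv (W⁄K) p ↔ H55P.SelTriv (W⁄M) p ∧ NoRel p (W⁄(𝓞 F)) (KG F M ιM) (KG F K ιK) := by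
  constructor
  · intro h
    have hN : NoRel p (W⁄(𝓞 F)) (KG F M ιM) (KG F K ιK) := by
      by_contra hN
      exact H13Z.not_selTriv _ p (non_abs hH hp K ιK (hns _ _ _ hL hMK hKL hN)) h
    exact ⟨(selB_iff hH hp M ιM).2 (H19B.sel_downB hH hp hL hMK hKL ((selB_iff hH hp K ιK).1 h)), hN⟩
  · rintro ⟨h, hN⟩
    exact (selB_iff hH hp K ιK).2 (H19B.selB hH hp hsp hB hL hMK hKL hN ((selB_iff hH hp M ιM).1 h)).1

/-- The theorem for p split in F. -/
theorem over_split : OverB F p W M K ιM ιK := by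
  have hsel := selB_iffK hH hp hsp hns M K ιM ιK hL hMK hKL hB
  refine ⟨hsel, ?_, fun hN => non_abs hH hp K ιK (hns _ _ _ hL hMK hKL hN),
    anintB hH hp hsp M K ιM ιK hL hMK hKL hB, lvalB hH hp hsp M K ιM ιK hL hMK hKL hB, annonB hH hp hsp M K ιM ιK hL hMK hKL hB,
    nt_of hH hp M ιM⟩
  rw [bsdB_iff hH hp K ιK, bsdB_iff hH hp M ιM]
  constructor
  · rintro ⟨h1, h2⟩
    obtain ⟨h3, h4⟩ := hsel.1 h1
    exact ⟨⟨h3, ((lvalB hH hp hsp M K ιM ιK hL hMK hKL hB (nt_of hH hp M ιM (Or.inr h3))).1 h2).1⟩, h4⟩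
  · rintro ⟨⟨h1, h2⟩, h3⟩
    exact ⟨hsel.2 ⟨h1, h3⟩, (lvalB hH hp hsp M K ιM ιK hL hMK hKL hB (nt_of hH hp M ιM (Or.inr h1))).2 ⟨h2, h3⟩⟩

end split

/-- THE RELATIVE THEOREM. -/
theorem main_B (hH : BaseH F (W⁄(𝓞 F)) Om m ψ) (hp : PrimeH F (W⁄(𝓞 F)) p) (hns : H19B.Spl F p → NonSel F W p) (M K : Type) [Field M]
    [NumberField M] [Field K] [NumberField K] (ιM : M →ₐ[ℚ] AlgebraicClosure F) (ιK : K →ₐ[ℚ] AlgebraicClosure F)
    (hT : TowerB F p W M K ιM ιK) : OverB F p W M K ιM ιK := by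
  classical
  obtain ⟨hMK, ⟨L, hLn, hL, hU, hKL⟩, hB⟩ := hT
  by_cases hI : (Ideal.span {(p : 𝓞 F)}).IsPrime
  · have hO := H13R.main_R hH hp M K ιM ιK ⟨hMK, ⟨L, hLn, hL, hU hI, hKL⟩, hB⟩
    exact ⟨hO.sel, hO.bsd, fun h => (hO.non h).2, fun _ => hO.int, fun _ => hO.lval, fun _ h => (hO.non h).1, nt_of hH hp M ιM⟩
  · have hsp := spl_of hp hI
    exact over_split hH hp hsp (hns hsp) M K ιM ιK hL hMK hKL hB

end H35U
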