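import Mathlib
import Pool.Agent.Lib.H35U.IsoB
import Pool.Agent.Lib.SSU.IsoC

/-! # H35U: integrality for arbitrary ramification above p -/

open NumberField IsDedekindDomain WeierstrassCurve

namespace H35U

open H55P (IQ embF eF LF Per IsHecke Pt ac Inert Dec Nm UnitP UnrP PExt PsiP)
open H55K H55K.TQ
open H35M (LVO LVOi NoTor)
open H13R (BadM NoRel LUnitG i1_bad i1_lfun i1_same i1_sel)
open H28I (TW Same tw_prime same_int)

/-- FM and FK are the fields generated by F and M, F and K in the algebraic closure of F. FM is contained in FK, FK is contained in a Galois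
extension L of FM of degree a power of p, and W has bad reduction at all primes of FM which divide the discriminant of W. There is no
condition on the ramification. -/
structure TowerN (F : Type) [Field F] [NumberField F] (p : ℕ) (W : WeierstrassCurve ℤ) (M K : Type) [Field M] [NumberField M] [Field K]
    [NumberField K] (ιM : M →ₐ[ℚ] AlgebraicClosure F) (ιK : K →ₐ[ℚ] AlgebraicClosure F) : Prop where
  sub : KG F M ιM ≤ KG F K ιK
  ext : ∃ (L : IntermediateField F (AlgebraicClosure F)) (_ : NumberField L), PExt p (KG F M ιM) L ∧ KG F K ιK ≤ L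
  bad : BadM (W⁄(𝓞 F)) (KG F M ιM)

/-- The conclusions over K and M without conditions on the ramification. -/
structure OverN (F : Type) [Field F] [NumberField F] (p : ℕ) (W : WeierstrassCurve ℤ) (M K : Type) [Field M] [NumberField M] [Field K]
    [NumberField K] (ιM : M →ₐ[ℚ] AlgebraicClosure F) : Prop where
  dn : H55P.SelTriv (W⁄K) p → H55P.SelTriv (W⁄M) p
  int : NT p W M → AnIntG p W K
  nt : UnrP p (KG F M ιM) ∨ H55P.SelTriv (W⁄M) p → NT p W M

variable {F : Type} [Field F] [NumberField F] [IQ F] {W : WeierstrassCurve ℤ} {Om : ℂ}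
    {m : Ideal (𝓞 F)} {ψ : Ideal (𝓞 F) →*₀ 𝓞 F} {p : ℕ}

theorem main_N (hH : BaseH F (W⁄(𝓞 F)) Om m ψ) (hp : PrimeH F (W⁄(𝓞 F)) p) (M K : Type) [Field M] [NumberField M]
    [Field K] [NumberField K] (ιM : M →ₐ[ℚ] AlgebraicClosure F) (ιK : K →ₐ[ℚ] AlgebraicClosure F)
    (hT : TowerN F p W M K ιM ιK) : OverN F p W M K ιM := by
  classical
  obtain ⟨hMK, ⟨L, hLn, hL, hKL⟩, hB⟩ := hT
  refine ⟨fun h => (selB_iff hH hp M ιM).2 (H19B.sel_downB hH hp hL hMK hKL ((selB_iff hH hp K ιK).1 h)), fun hN => ?_, nt_of hH hp M ιM⟩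
  by_cases hI : (Ideal.span {(p : 𝓞 F)}).IsPrime
  · have hp2 : p ≠ 2 := by
      have := hp.five
      omega
    have hRK : LRel W ψ K (KG F K ιK) := H13R.lrelK hH hp hL hB K ιK hMK hKL
    exact int_ofO hH hp K ιK hRK fun V hV =>
      SSU.intC hH hp hI hL hMK hKL (nt_up hH hp.prime hp2 hp.unr M ιM hN) hV
  · exact anintB hH hp (spl_of hp hI) M K ιM ιK hL hMK hKL hB hN

theorem relN_iso {W' : WeierstrassCurve ℤ} {kap : ℤ} {e t u lam : ℚ} (h : TW F W W' Om m ψ kap e t u lam)
    (hp' : PrimeH F (W'⁄(𝓞 F)) p) (M K : Type) [Field M] [NumberField M] [Field K] [NumberField K]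
    (ιM : M →ₐ[ℚ] AlgebraicClosure F) (ιK : K →ₐ[ℚ] AlgebraicClosure F) (hT : TowerN F p W' M K ιM ιK) : OverN F p W' M K ιM := by
  classical
  have hp := (tw_prime h).1 hp'
  have hT' : TowerN F p W M K ιM ιK := ⟨hT.sub, hT.ext, (i1_bad h _).1 hT.bad⟩
  have hO := main_N h.base hp M K ιM ιK hT'
  obtain ⟨hMK, ⟨L, hLn, hL, hKL⟩, hB⟩ := hT'
  have hSM := i1_same h hp M (i1_lfun h M ιM (H13R.bad_of h.base hB))
  have hSK := i1_same h hp K (i1_lfun h K ιK fun w hw => H13R.bad_KR h.base hp hL hMK hKL hB w hw)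
  refine ⟨?_, fun hT => ?_, fun hT => ?_⟩
  · rw [i1_sel hp.prime hp.five hSK, i1_sel hp.prime hp.five hSM]
    exact hO.dn
  · exact same_int hSK (hO.int ((nt_same hp.prime hp.five hSM).1 hT))
  · rw [i1_sel hp.prime hp.five hSM] at hT
    exact (nt_same hp.prime hp.five hSM).2 (hO.nt hT)

end H35U
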