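import Mathlib
import Pool.Agent.Lib.H35U.MainN
import Pool.Agent.Lib.H19C.Main
import Pool.Agent.Lib.H28T.XMain
import Pool.Agent.Lib.H28I.A1
import Pool.Agent.Lib.H13R.K1
import Pool.Agent.Lib.H55W.Main
import Pool.Agent.Lib.H55W.PR
import Pool.Agent.Lib.H55W.EZM
import Pool.Agent.Lib.H55Y.Y5
import Pool.Agent.Lib.H55Y.Y6
import Pool.Agent.Lib.H55W.C4
import Pool.Agent.Lib.H55K.EX2
import Pool.Agent.Lib.H55K.FC2
import Pool.Agent.Lib.H55K.FC3

/-!
# The p-part of the Birch and Swinnerton-Dyer conjecture for the elliptic curves with complex multiplication in p-extensions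

F is an imaginary quadratic field of class number one, E an elliptic curve over the rationals with complex multiplication (over F)
by an order of F, given by a global minimal equation W (CM F W; all 13 orders of class number one).
p ≥ 5 is a prime number of good reduction: it does not divide the discriminant of W.

THE RELATIVE THEOREM. M and K are number fields, FM and FK the fields generated by F and M, F and K in the algebraic closure of F. FM is
contained in FK and FK is contained in a Galois extension L of FM of degree a power of p, abelian or not (L/ℚ need not be Galois, the degree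
of M is arbitrary), and W has bad reduction at all primes of FM which divide the discriminant of W (automatic if the primes dividing the
discriminant are unramified in FM: bad). NoRel: no prime v of FM which does not divide the discriminant and where p divides the number of
points of W over the residue field is ramified in FK (primes v above p are included).
LUnitG p W K: the L-series of W over K (Mathlib: WeierstrassCurve.LSeries) converges absolutely for Re s > 3/2, continues to Re s > 1/2,
does not vanish at s = 1, and the algebraic part lG of the value at 1 is a p-adic unit. NT: W has no point of order p over M.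
(relN) No condition on the ramification: if the p-Selmer group over K is trivial, then it is trivial over M; if NT holds, L(W/K, s) converges
absolutely for Re s > 3/2 and continues to Re s > 1/2, and the algebraic part of the value at 1 is integral above p; NT holds if p is
unramified in FM or if the p-Selmer group over M is trivial.
(rel) p is split in F, or p is inert in F and unramified in L. (sel) The p-Selmer group over K is trivial if and only if it is trivial over M
and NoRel holds. (bsd) The same for the rank part and the p-part of the refined conjecture in analytic rank 0 with trivial p-Selmer group.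
(selnon) If NoRel does not hold, then the classical p-Selmer group over K is not zero. (lval) If NT holds, then LUnitG holds over K if and only
if it holds over M and NoRel holds. (annon) If NT holds and NoRel does not hold, then the algebraic part of the L-value over K is divisible by
all primes above p.
(relC) p is inert in F and the second ramification groups (lower numbering) of L over FM at the primes above p are trivial: (up) if the
p-Selmer group over M is trivial and NoRel holds, then the p-Selmer group over K is trivial; (bsd), (lval), (annon) as before.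
If L(W/M, 1) is not zero, then LUnitG p W M is true for all but finitely many primes p (gen).

THE ABSOLUTE THEOREM (res), M = ℚ: K is any number field which can be embedded in a Galois extension L of F of degree a power of p, abelian
or not, in which p is unramified (SubUF F p K). InPF: L can be chosen unramified at all primes v of F which do not divide the discriminant
and where p divides the number of points of W over the residue field. AnUnitG p W K (the analytic part): as LUnitG, with the analytic order
of the Tate-Shafarevich group (shaG: the number predicted by the refined conjecture) in the place of lG. (crit) The analytic part holds over K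
if and only if it holds over the rationals and InPF holds. (bsd) The analytic part over K implies that the p-Selmer group and the p-torsion
of the Tate-Shafarevich group over K are zero and that W(K) is finite of order prime to p: the rank part and the p-part of the refined
conjecture hold over K. (non) If InPF does not hold, the algebraic part of the L-value is divisible by all primes above p and the classical
p-Selmer group is not zero. If L(W/ℚ, 1) is not zero, the analytic part over the rationals is true for all but finitely many primes p; for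
y^2 + y = x^3 it is true for all p ≥ 5.

(rich), (real): for all F, W, p, the class of fields InPF is large (H28T.Rich, H28T.RealG).
-/

open NumberField IsDedekindDomain WeierstrassCurve H55P H55K.TQ

namespace H35U

/-- W is a global minimal equation of an elliptic curve over the rationals with complex multiplication by the order of conductor f of F,
of class number one (H55Y.Cond): its period lattice is a multiple of the lattice of this order. -/
def CM (F : Type) [Field F] [NumberField F] [IQ F] (W : WeierstrassCurve ℤ) : Prop :=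
  W.Δ ≠ 0 ∧ H13D.MinZ W ∧ ∃ (f : ℕ) (Om : ℂ), H55Y.Cond F f ∧
    H55Y.PerO F f (-(eF F (W⁄(𝓞 F)).c₄) / 48) (-(eF F (W⁄(𝓞 F)).c₆) / 864) Om

/-- The conclusions over K. -/
structure OverK (F : Type) [Field F] [NumberField F] (p : ℕ) (W : WeierstrassCurve ℤ) (K : Type) [Field K] [NumberField K] :
    Prop where
  int : AnIntG p W K
  crit : AnUnitG p W K ↔ AnUnitG p W ℚ ∧ InPF (W⁄(𝓞 F)) p K
  bsd : AnUnitG p W K → BSDPG p W K
  non : ¬ InPF (W⁄(𝓞 F)) p K → AnNonG p W K ∧ H13Z.SelNonT (W⁄K) p

/-- The conclusions for the prime p. -/
structure AtP (F : Type) [Field F] [NumberField F] [IQ F] (p : ℕ) (W : WeierstrassCurve ℤ) : Prop where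
  rel : ∀ (M K : Type) [Field M] [NumberField M] [Field K] [NumberField K] (ιM : M →ₐ[ℚ] AlgebraicClosure F)
    (ιK : K →ₐ[ℚ] AlgebraicClosure F), TowerB F p W M K ιM ιK → OverB F p W M K ιM ιK
  relC : ∀ (M K : Type) [Field M] [NumberField M] [Field K] [NumberField K] (ιM : M →ₐ[ℚ] AlgebraicClosure F)
    (ιK : K →ₐ[ℚ] AlgebraicClosure F), SSU.TowerC F p W M K ιM ιK → SSU.OverC F p W M K ιM ιK
  relN : ∀ (M K : Type) [Field M] [NumberField M] [Field K] [NumberField K] (ιM : M →ₐ[ℚ] AlgebraicClosure F)
    (ιK : K →ₐ[ℚ] AlgebraicClosure F), TowerN F p W M K ιM ιK → OverN F p W M K ιM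
  res : ∀ (K : Type) [Field K] [NumberField K], SubUF F p K → OverK F p W K
  rich : H28T.Rich (W⁄(𝓞 F)) p
  real : ∀ (H : Type) [Group H] [Finite H] (k : ℕ), Nat.card H = p ^ k → H28T.RealG (W⁄(𝓞 F)) p H

/-- The conclusions for all p together. -/
structure Almost (F : Type) [Field F] [NumberField F] [IQ F] (W : WeierstrassCurve ℤ) : Prop where
  rat : LNz W ℚ → {p : ℕ | p.Prime ∧ ¬ AnUnitG p W ℚ}.Finite
  gen : ∀ (M : Type) [Field M] [NumberField M] (ιM : M →ₐ[ℚ] AlgebraicClosure F), H13R.BadM (W⁄(𝓞 F)) (KG F M ιM) → LNz W M →
    {p : ℕ | p.Prime ∧ ¬ H13R.LUnitG p W M}.Finite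
  bad : ∀ (M : Type) [Field M] [NumberField M] (ιM : M →ₐ[ℚ] AlgebraicClosure F),
    (∀ v : HeightOneSpectrum (𝓞 F), (W⁄(𝓞 F)).Δ ∈ v.asIdeal → ¬ RamF (KG F M ιM) v.asIdeal) → H13R.BadM (W⁄(𝓞 F)) (KG F M ιM)

/-- The converse for Selmer groups, p split. -/
theorem ns_all {F : Type} [Field F] [NumberField F] [IQ F] {W : WeierstrassCurve ℤ} {Om : ℂ} {m : Ideal (𝓞 F)}
    {ψ : Ideal (𝓞 F) →*₀ 𝓞 F} {p : ℕ} (hH : BaseH F (W⁄(𝓞 F)) Om m ψ) (hp : PrimeH F (W⁄(𝓞 F)) p) (hs : H19B.Spl F p) :
    NonSel F W p := by
  intro M K L _ _ hL hMK hKL hN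
  exact H19C.nonselB hH hp hs hL hMK hKL hN

theorem result :
    (∀ (F : Type) [Field F] [NumberField F] [IQ F] (W : WeierstrassCurve ℤ), CM F W →
      (∀ p : ℕ, p.Prime → 5 ≤ p → ¬ (p : ℤ) ∣ W.Δ → AtP F p W) ∧ Almost F W) ∧
    CM H55B.F EZ ∧ ∀ p : ℕ, p.Prime → 5 ≤ p → AnUnitG p EZ ℚ := by
  have hcub : ∀ (F : Type) [Field F] [NumberField F] [IQ F], ∀ w : 𝓞 F, w ^ 2 + w + 1 = 0 → ∀ n : ℤ, n ≠ 0 →
      ∃ κ : 𝓞 F → 𝓞 F, H55W.PRC (𝓞 F) 3 n (3 * n) (27 * n) κ := fun F _ _ _ w hw n hn => H55W.cub_F F IQ.deg w hw n hn
  refine ⟨fun F _ _ _ W' hC => ?_, ⟨by rw [H55W.ezm_disc]; norm_num, H55W.ezm_min, ?_⟩, fun p hp h5 => H55K.TQ.ex_an hp h5⟩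
  · rcases H55Y.y5_cases hC (hcub F) with ⟨Om, hper⟩ | ⟨W, Om, m, ψ, kap, e, t, u, lam, hΔ, hper, h⟩
    · obtain ⟨hΔ, hmin, -⟩ := hC
      obtain ⟨ψ, hH⟩ := H55W.base_all0 (hcub F) W' Om hΔ hper hmin
      refine ⟨fun p hp h5 hd => ?_, fun hL => ?_, fun M _ _ ιM hB hL => H13R.lunit_almost hH M ιM hB hL,
        fun M _ _ ιM hU => H13R.bad_unr hH _ hU⟩
      · have hP := H55W.prime_simple hΔ hper hp h5 hd
        refine ⟨fun M K _ _ _ _ ιM ιK hT => main_B hH hP (fun hs => ns_all hH hP hs) M K ιM ιK hT,
          fun M K _ _ _ _ ιM ιK hT => SSU.main_C hH hP M K ιM ιK hT,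
          fun M K _ _ _ _ ιM ιK hT => main_N hH hP M K ιM ιK hT, fun K _ _ hK => ?_,
          H28T.rich_of hH hP, fun H _ _ k hk => H28T.real_Q hH hP H k hk⟩
        obtain ⟨h1, h2, h3⟩ := main_Q hH hP K hK
        exact ⟨int_Q hH hP K hK, h1, h2, h3⟩
      · refine ((prime_almost (W'⁄(𝓞 F)) hH.data.ell).union (an_almost hH hL)).subset fun p hp => ?_
        obtain ⟨h1, h2⟩ := hp
        by_cases h3 : PrimeH F (W'⁄(𝓞 F)) p
        · exact Or.inr ⟨h1, fun h4 => h2 h4⟩
        · exact Or.inl ⟨h1, h3⟩
    · refine ⟨fun p hp h5 hd => ?_, fun hL => ?_, fun M _ _ ιM hB hL => H13R.lunit_almost_iso h M ιM hB hL,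
        fun M _ _ ιM hU => H13R.bad_unr_iso h _ hU⟩
      · have hP0 := H55W.prime_simple hΔ hper hp h5 fun h' => hd (H55Y.y6_dvd h hp h')
        have hP := (H28I.tw_prime h).2 hP0
        obtain ⟨r1, r2⟩ := H28I.rich_iso h hP
        refine ⟨fun M K _ _ _ _ ιM ιK hT => relB_iso h hP (fun hs => ns_all h.base hP0 hs) M K ιM ιK hT,
          fun M K _ _ _ _ ιM ιK hT => SSU.relC_iso h hP M K ιM ιK hT,
          fun M K _ _ _ _ ιM ιK hT => relN_iso h hP M K ιM ιK hT,
          fun K _ _ hK => ?_, r1, fun H _ _ k hk => r2 H k hk⟩
        obtain ⟨h0, h1, h2, h3⟩ := H28I.main_iso h hP K hK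
        exact ⟨h0, h1, h2, h3⟩
      · exact (H28I.almost_iso h hL).subset fun p hp => ⟨hp.1, fun h4 => hp.2 h4.2⟩
  · obtain ⟨Om, hper⟩ := H55W.ezm_per
    refine ⟨1, Om, Or.inl rfl, hper.ne, LF H55B.F, fun z => ?_, hper.g2, hper.g3⟩
    rw [H55P.mem_LF]
    constructor
    · rintro ⟨y, rfl⟩
      exact ⟨0, y, by rw [Int.cast_zero, zero_add, Nat.cast_one, one_mul]⟩
    · rintro ⟨a, y, rfl⟩
      exact ⟨(a : 𝓞 H55B.F) + y, by rw [map_add, map_intCast, Nat.cast_one, one_mul]⟩

end H35U
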